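import Pool.Agent.Q28.GL.Glue

/-!
# Bloch-Beilinson filtrations on all varieties and on single varieties
-/

open CategoryTheory AlgebraicGeometry

universe u v w

namespace Pool.Agent.Q28.GL

open Pool.Agent.H914 Pool.Agent.H914.VarClass Pool.Agent.H914.VarClass.Obj Pool.Agent.W492.BB
  Pool.Agent.W550.Corr Pool.Agent.TH133 Pool.Agent.Y148.BB

set_option linter.unusedSectionVars false

variable {k : Type u} [Field k] {𝒱 : VarClass k}

variable {C : TheoryData.{u, v, 0} 𝒱 ℚ} {K : Type w} [Field K] {H : WeilTheoryData.{u, v, w} C K}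
  [hC : IsChowProj C] [hH : IsWeilProj H] {N : ∀ X : 𝒱.Obj, ℕ → Submodule ℚ (C.A X)}
  {X Y Z W Z₁ Z₂ : 𝒱.Obj}

lemma IsPreBB.mono {S S' : 𝒱.Obj → Prop} {F : ∀ X : 𝒱.Obj, ℕ → ℕ → Submodule ℚ (C.A X)}
    (h : IsPreBB H N S F) (hS : ∀ X, S' X → S X) : IsPreBB H N S' F where
  anti X hX := h.anti X (hS X hX)
  zero X hX := h.zero X (hS X hX)
  one X hX := h.one X (hS X hX)
  two X hX := h.two X (hS X hX)
  stable X Y hX hY := h.stable X Y (hS X hX) (hS Y hY)
  shift X Y hX hY := h.shift X Y (hS X hX) (hS Y hY)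

lemma HasBB.mono {c : ℕ} {S S' : 𝒱.Obj → Prop} (h : HasBB H N c S) (hS : ∀ X, S' X → S X) :
    HasBB H N c S' := by
  obtain ⟨F, hF, ht⟩ := h
  exact ⟨F, hF.mono hS, fun X hX => ht X (hS X hX)⟩

include hC

/-- A morphism `f : Z ⟶ X` and a class `w` on `Z` with `f_* w = 1` (a multisection with rational
coefficients) show that `X` is dominated by `Z`. -/
lemma dominates_of_multisection (f : Z ⟶ X) (w : C.A Z) (hw : C.Deg ((Z.dim : ℤ) - X.dim) w)
    (h1 : C.down f w = 1) : Dominates C 0 X Z := by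
  refine ⟨C.cograph f, C.comp (C.mulCorr w) (C.graph f), ?_, ?_, fun x => ?_⟩
  · have h := C.push_mem (Obj.lift f (𝟙 Z)) (C.one_mem Z)
    have e1 : (0 : ℤ) + 1 * (((X.prod Z).dim : ℤ) - (Z.dim : ℤ)) = X.dim + ((0 : ℕ) : ℤ) := by
      rw [dim_prod]; push_cast; ring
    rwa [e1] at h
  · have h2 := C.push_mem (Obj.lift (𝟙 Z) (𝟙 Z)) hw
    have e2 : ((Z.dim : ℤ) - X.dim) + 1 * (((Z.prod Z).dim : ℤ) - (Z.dim : ℤ)) =
        Z.dim + (Z.dim - X.dim) := by
      rw [dim_prod]; push_cast; ring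
    rw [e2] at h2
    have h3 := C.push_mem (Obj.lift (𝟙 Z) f) (C.one_mem Z)
    have e3 : (0 : ℤ) + 1 * (((Z.prod X).dim : ℤ) - (Z.dim : ℤ)) = Z.dim + (X.dim - Z.dim) := by
      rw [dim_prod]; push_cast; ring
    rw [e3] at h3
    have h4 := comp_mem C h2 h3
    have e4 : (Z.dim : ℤ) + ((Z.dim - X.dim) + (X.dim - Z.dim)) = Z.dim - ((0 : ℕ) : ℤ) := by
      push_cast; ring
    rwa [e4] at h4
  · rw [C.act_comp, C.act_cograph, C.act_mulCorr, C.act_graph]
    have h5 := C.proj_right f w x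
    rw [h5]
    have h6 : C.push f w = 1 := h1
    rw [h6, one_mul]

lemma dominates_prod_left (X Y : 𝒱.Obj) : Dominates C 0 X (X.prod Y) := by
  obtain ⟨a, ha, h1, -⟩ := hC.exists_deg_one Y
  refine dominates_of_multisection (fst X Y) (C.pull (snd X Y) a) ?_ (h1 X)
  have := C.pull_mem (snd X Y) ha
  have e : ((X.prod Y).dim : ℤ) - X.dim = Y.dim := by rw [dim_prod]; push_cast; ring
  rw [e]
  exact this

lemma dominates_prod_right (X Y : 𝒱.Obj) : Dominates C 0 Y (X.prod Y) := by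
  obtain ⟨a, ha, -, h1⟩ := hC.exists_deg_one X
  refine dominates_of_multisection (snd X Y) (C.pull (fst X Y) a) ?_ (h1 Y)
  have := C.pull_mem (fst X Y) ha
  have e : ((X.prod Y).dim : ℤ) - Y.dim = X.dim := by rw [dim_prod]; push_cast; ring
  rw [e]
  exact this

lemma directed_univ : Directed C (fun _ => True) := fun X Y _ _ =>
  ⟨X.prod Y, trivial, dominates_prod_left X Y, dominates_prod_right X Y⟩

lemma hull_univ (X : 𝒱.Obj) : Hull C 0 (fun _ => True) X := ⟨X, trivial, Dominates.refl X⟩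

lemma hull_of_mem {S : 𝒱.Obj → Prop} (hX : S X) : Hull C 0 S X := ⟨X, hX, Dominates.refl X⟩

include hH

variable (hN : IsAbelJacobiKernel H N)
include hN

theorem glue {d : ℕ} {S : 𝒱.Obj → Prop} (hS : Directed C S) :
    HasBB H N d (Hull C 0 S) ↔ ∀ Z, S Z → HasOwnBB H N d Z := by
  constructor
  · intro h Z hZ
    exact h.mono fun X hX => by rw [hX]; exact hull_of_mem hZ
  · intro h
    refine ⟨gF H N S, isPreBB_gF hN hS, fun X hX j => ?_⟩
    have := gF_top hN hS (c := 0) (d := d) (fun Z hZ => ⟨Z, Dominates.refl Z, h Z hZ⟩) hX j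
    rwa [Nat.zero_add] at this

theorem twisted {c d : ℕ} {𝓕 : 𝒱.Obj → Prop} (hd : ∀ X, Hull C c 𝓕 X)
    (h : ∀ Z, 𝓕 Z → HasOwnBB H N d Z) : HasBB H N (c + d) (fun _ => True) := by
  refine ⟨gF H N (fun _ => True), (isPreBB_gF hN directed_univ).mono fun X _ => hull_univ X,
    fun X _ j => gF_top hN directed_univ (c := c) (fun Z _ => ?_) (hull_univ X) j⟩
  obtain ⟨Z', hZ', hdom⟩ := hd Z
  exact ⟨Z', hdom, h Z' hZ'⟩

omit hN in
lemma cF_zero_one (Z : 𝒱.Obj) : cF H N Z 0 1 = ⊥ := by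
  rw [eq_bot_iff]
  rintro z ⟨h1, h2⟩
  obtain ⟨q, rfl⟩ := hC.gr_zero Z z (by simpa using h1)
  rw [Submodule.mem_bot]
  by_cases hq : q = 0
  · rw [hq, zero_smul]
  · exfalso
    apply hH.one_ne_zero Z
    have h3 : H.cl (q⁻¹ • (q • (1 : C.A Z))) = 0 := cl_smul_zero h2 q⁻¹
    rwa [smul_smul, inv_mul_cancel₀ hq, one_smul, map_one] at h3

theorem own_iff_chains (Z : 𝒱.Obj) : HasOwnBB H N 0 Z ↔ ChainsVanish H N Z := by
  constructor
  · rintro ⟨F, hF, ht⟩ j z hz
    have h1 := hz.two_le hN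
    have h2 : z ∈ cF H N Z j (j + 1) := by
      obtain ⟨μ, rfl⟩ : ∃ μ, j = μ + 1 := ⟨j - 1, by omega⟩
      exact Submodule.subset_span hz
    have h3 := cF_le hN (hF.loc (Z := Z) rfl) _ _ h2
    have h4 := ht Z rfl j
    rw [Nat.add_zero] at h4
    rw [h4] at h3
    exact (Submodule.mem_bot _).1 h3
  · intro h
    obtain ⟨F, hF, hFZ⟩ := (isLoc_cF hN Z).pre
    refine ⟨F, hF, ?_⟩
    rintro X rfl j
    rw [hFZ, Nat.add_zero]
    match j with
    | 0 => exact cF_zero_one X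
    | j + 1 =>
      rw [eq_bot_iff]
      refine Submodule.span_le.2 fun z hz => ?_
      exact (Submodule.mem_bot _).2 (h (j + 1) z hz)

theorem lefschetz (hL : LefschetzFactors H) {c : ℕ} (h : HasBB H N c (fun _ => True)) :
    HasBB H N 0 (fun _ => True) := by
  obtain ⟨F, hF, ht⟩ := h
  refine ⟨F, hF, fun X _ j => ?_⟩
  have key : ∀ ν, j < ν → F X j ν ≤ F X j (ν + 1) := by
    intro ν hν z hz
    have hzj : C.Deg j z := by
      have h0 : ∀ μ, F X j μ ≤ F X j 0 := by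
        intro μ
        induction μ with
        | zero => exact le_rfl
        | succ μ ih => exact (hF.anti X trivial j μ).trans ih
      exact (hF.zero X trivial j z).1 (h0 ν hz)
    by_cases hm : 2 * j < ν
    · have hk : Kills H (dg C X) (2 * j - ν) := by
        intro a ha
        have h0 : H.gr X (2 * (j : ℤ) - ν) = ⊥ := H.gr_neg X _ (by omega)
        have : a = 0 := by
          have : a ∈ H.gr X (2 * (j : ℤ) - ν) := ha
          rw [h0] at this
          exact (Submodule.mem_bot _).1 this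
        rw [this, actH_zero]
      have := hF.shift X X trivial trivial j j ν (dg C X) (by
        have := dg_mem C X
        have e : (X.dim : ℤ) + j - j = X.dim := by ring
        rw [e]; exact this) hk z hz
      rwa [act_dg] at this
    · obtain ⟨m, hm'⟩ : ∃ m : ℕ, m = 2 * j - ν := ⟨_, rfl⟩
      obtain ⟨Y, a, b, hY, ha, hb, hab⟩ := hL X m
      have hmz : (m : ℤ) = 2 * (j : ℤ) - ν := by omega
      have ha' : C.Deg (X.dim + (j : ℤ) - j) a := by
        have e : (X.dim : ℤ) + j - j = X.dim := by ring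
        rw [e]; exact ha
      have hb' : C.Deg (Y.dim + (j : ℤ) - j) b := by
        have e : (Y.dim : ℤ) + j - j = Y.dim := by ring
        rw [e]; exact hb
      have hdg : C.Deg (X.dim + (j : ℤ) - j) (dg C X) := by
        have e : (X.dim : ℤ) + j - j = X.dim := by ring
        rw [e]; exact dg_mem C X
      have hk : Kills H (dg C X - C.comp a b) (2 * j - ν) := by
        intro α hα
        rw [← hmz] at hα
        rw [map_sub, H.act_sub, actH_comp, hab α hα]
        have : H.cl (dg C X) = dg H.toTheoryData X := by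
          rw [dg, dg, TheoryData.graph, TheoryData.graph, H.cl_push, map_one]
        rw [this, act_dg, sub_self]
      have h1 := hF.shift X X trivial trivial j j ν (dg C X - C.comp a b)
        (Submodule.sub_mem _ hdg (comp_deg ha' hb')) hk z hz
      have h2 : C.act a z = 0 := by
        have h3 : C.Deg j (C.act a z) := act_deg ha' hzj
        exact hC.gr_top Y j _ h3 (by omega)
      rw [C.act_sub, act_dg, C.act_comp, h2, C.act_map_zero, sub_zero] at h1
      exact h1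
  have all : ∀ e : ℕ, F X j (j + 1) ≤ F X j (j + 1 + e) := by
    intro e
    induction e with
    | zero => exact le_rfl
    | succ e ih => exact ih.trans (key (j + 1 + e) (by omega))
  rw [eq_bot_iff, Nat.add_zero]
  have h5 := all c
  have e : j + 1 + c = j + c + 1 := by ring
  rw [e, ht X trivial j] at h5
  exact h5

/-- The filtration glued from all the varieties is the smallest one. -/
theorem gF_le {F : ∀ X : 𝒱.Obj, ℕ → ℕ → Submodule ℚ (C.A X)} (hF : IsPreBB H N (fun _ => True) F)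
    (X : 𝒱.Obj) (j ν : ℕ) : gF H N (fun _ => True) X j ν ≤ F X j ν := by
  refine Submodule.span_le.2 ?_
  rintro x ⟨Z, f, g, -, h, hx⟩
  have h1 := cF_le hN (hF.loc (Z := Z) trivial) j ν hx
  have h2 := hF.stable Z X trivial trivial j j ν g (h.deg_g j) _ h1
  rwa [h.eq] at h2

theorem main :
    (∀ 𝓕 : 𝒱.Obj → Prop, (∀ X, Hull C 0 𝓕 X) →
      [HasBB H N 0 (fun _ => True), ∀ Z, 𝓕 Z → HasOwnBB H N 0 Z,
        ∀ Z, 𝓕 Z → ChainsVanish H N Z].TFAE) ∧
    (∀ (d : ℕ) (S : 𝒱.Obj → Prop), Directed C S →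
      (HasBB H N d (Hull C 0 S) ↔ ∀ Z, S Z → HasOwnBB H N d Z)) ∧
    (∀ (c d : ℕ) (𝓕 : 𝒱.Obj → Prop), (∀ X, Hull C c 𝓕 X) → (∀ Z, 𝓕 Z → HasOwnBB H N d Z) →
      HasBB H N (c + d) (fun _ => True)) ∧
    (LefschetzFactors H → ∀ (c d : ℕ) (𝓕 : 𝒱.Obj → Prop), (∀ X, Hull C c 𝓕 X) →
      (HasBB H N 0 (fun _ => True) ↔ ∀ Z, 𝓕 Z → HasOwnBB H N d Z)) ∧
    (∀ (X Z : 𝒱.Obj) (f : Z ⟶ X) (w : C.A Z), C.Deg ((Z.dim : ℤ) - X.dim) w →
      C.down f w = 1 → Dominates C 0 X Z) ∧
    ∃ F₀, IsPreBB H N (fun _ => True) F₀ ∧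
      ∀ F, IsPreBB H N (fun _ => True) F → ∀ X j ν, F₀ X j ν ≤ F X j ν := by
  have h2 : ∀ (c d : ℕ) (𝓕 : 𝒱.Obj → Prop), (∀ X, Hull C c 𝓕 X) →
      (∀ Z, 𝓕 Z → HasOwnBB H N d Z) → HasBB H N (c + d) (fun _ => True) :=
    fun c d 𝓕 hd h => twisted hN hd h
  refine ⟨fun 𝓕 hd => ?_, fun d S hS => glue hN hS, h2, fun hL c d 𝓕 hd => ?_,
    fun X Z f w hw h1 => dominates_of_multisection f w hw h1, ?_⟩
  · tfae_have 1 → 2 := fun h Z _ => h.mono fun _ _ => trivial
    tfae_have 2 → 1 := fun h => h2 0 0 𝓕 hd h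
    tfae_have 2 ↔ 3 := forall₂_congr fun Z _ => own_iff_chains hN Z
    tfae_finish
  · refine ⟨fun h Z _ => ?_, fun h => lefschetz hN hL (h2 c d 𝓕 hd h)⟩
    obtain ⟨F, hF, ht⟩ := h
    refine ⟨F, hF.mono fun _ _ => trivial, fun X _ j => ?_⟩
    have h3 : ∀ e : ℕ, F X j (j + 0 + 1 + e) ≤ F X j (j + 0 + 1) := by
      intro e
      induction e with
      | zero => exact le_rfl
      | succ e ih => exact (hF.anti X trivial j _).trans ih
    have h4 := h3 d
    rw [ht X trivial j] at h4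
    rw [eq_bot_iff]
    have e : j + 0 + 1 + d = j + d + 1 := by ring
    rwa [e] at h4
  · exact ⟨gF H N (fun _ => True), (isPreBB_gF hN directed_univ).mono fun X _ => hull_univ X,
      fun F hF X j ν => gF_le hN hF X j ν⟩

end Pool.Agent.Q28.GL
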