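import Pool.Agent.Q28.GL.Defs

/-!
# The smallest filtration of a single variety
-/

open CategoryTheory AlgebraicGeometry

universe u v w

namespace Pool.Agent.Q28.GL

open Pool.Agent.H914 Pool.Agent.H914.VarClass Pool.Agent.H914.VarClass.Obj Pool.Agent.W492.BB
  Pool.Agent.W550.Corr Pool.Agent.TH133 Pool.Agent.Y148.BB

set_option linter.unusedSectionVars false

variable {k : Type u} [Field k] {𝒱 : VarClass k}

variable {C : TheoryData.{u, v, 0} 𝒱 ℚ} {K : Type w} [Field K] (H : WeilTheoryData.{u, v, w} C K)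
  [hC : IsChowProj C] [hH : IsWeilProj H]

/-- The conditions 1, 3 and 4 for the filtration `G` on the Chow groups of `Z`. -/
structure IsLoc (N : ∀ X : 𝒱.Obj, ℕ → Submodule ℚ (C.A X)) (Z : 𝒱.Obj)
    (G : ℕ → ℕ → Submodule ℚ (C.A Z)) : Prop where
  anti : ∀ j ν : ℕ, G j (ν + 1) ≤ G j ν
  zero : ∀ (j : ℕ) (z : C.A Z), z ∈ G j 0 ↔ C.Deg j z
  one : ∀ (j : ℕ) (z : C.A Z), z ∈ G j 1 ↔ C.Deg j z ∧ H.cl z = 0
  two : ∀ j : ℕ, G j 2 = N Z j
  stable : ∀ (j i ν : ℕ) (Γ : C.A (Z.prod Z)), C.Deg (Z.dim + i - j) Γ →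
    ∀ z ∈ G j ν, C.act Γ z ∈ G i ν
  shift : ∀ (j i ν : ℕ) (Γ : C.A (Z.prod Z)), C.Deg (Z.dim + i - j) Γ →
    Kills H Γ (2 * j - ν) → ∀ z ∈ G j ν, C.act Γ z ∈ G i (ν + 1)

variable {H} {N : ∀ X : 𝒱.Obj, ℕ → Submodule ℚ (C.A X)} {X Y Z W : 𝒱.Obj}

lemma IsPreBB.loc {S : 𝒱.Obj → Prop} {F : ∀ X : 𝒱.Obj, ℕ → ℕ → Submodule ℚ (C.A X)}
    (h : IsPreBB H N S F) (hZ : S Z) : IsLoc H N Z (F Z) where
  anti := h.anti Z hZ
  zero := h.zero Z hZ
  one := h.one Z hZ
  two := h.two Z hZ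
  stable := h.stable Z Z hZ hZ
  shift := h.shift Z Z hZ hZ

open Classical in
lemma IsLoc.pre {G : ℕ → ℕ → Submodule ℚ (C.A Z)} (h : IsLoc H N Z G) :
    ∃ F : ∀ X : 𝒱.Obj, ℕ → ℕ → Submodule ℚ (C.A X), IsPreBB H N (fun Y => Y = Z) F ∧ F Z = G := by
  refine ⟨fun X => if e : X = Z then e ▸ G else fun _ _ => ⊥, ?_, by simp⟩
  constructor
  · rintro X rfl; simpa using h.anti
  · rintro X rfl; simpa using h.zero
  · rintro X rfl; simpa using h.one
  · rintro X rfl; simpa using h.two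
  · rintro X Y rfl hY
    subst hY
    simpa using h.stable
  · rintro X Y rfl hY
    subst hY
    simpa using h.shift

include hC hH in
lemma cl_smul_zero {z : C.A X} (hz : H.cl z = 0) (q : ℚ) : H.cl (q • z) = 0 := by
  rw [Algebra.smul_def, map_mul, hz, mul_zero]

include hC hH

omit hH in
lemma act_deg {i j : ℤ} {Γ : C.A (X.prod Y)} (hΓ : C.Deg (X.dim + i - j) Γ) {z : C.A X}
    (hz : C.Deg j z) : C.Deg i (C.act Γ z) := by
  have h := act_mem' C (e := i - j) (by rwa [← add_sub_assoc]) hz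
  rwa [add_sub_cancel] at h

lemma actH_deg {i j m : ℤ} {Γ : C.A (X.prod Y)} (hΓ : C.Deg (X.dim + i - j) Γ) {a : H.A X}
    (ha : H.Deg m a) : H.Deg (m + 2 * (i - j)) (H.act (H.cl Γ) a) :=
  actH_mem H (e := i - j) (by rwa [← add_sub_assoc]) ha

omit hH in
lemma comp_deg {i j l : ℤ} {Γ : C.A (X.prod Y)} {Δ : C.A (Y.prod Z)}
    (hΓ : C.Deg (X.dim + i - j) Γ) (hΔ : C.Deg (Y.dim + l - i) Δ) :
    C.Deg (X.dim + l - j) (C.comp Γ Δ) := by
  have h := comp_mem C (e := i - j) (e' := l - i) (by rwa [← add_sub_assoc])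
    (by rwa [← add_sub_assoc]) (Γ := Γ) (Δ := Δ)
  have e : (X.dim : ℤ) + (i - j + (l - i)) = X.dim + l - j := by ring
  rwa [e] at h

lemma cl_comp (Γ : C.A (X.prod Y)) (Δ : C.A (Y.prod Z)) :
    H.cl (C.comp Γ Δ) = H.comp (H.cl Γ) (H.cl Δ) := by
  rw [TheoryData.comp, TheoryData.comp, H.cl_push, map_mul, H.cl_pull, H.cl_pull]

lemma actH_comp (Γ : C.A (X.prod Y)) (Δ : C.A (Y.prod Z)) (a : H.A X) :
    H.act (H.cl (C.comp Γ Δ)) a = H.act (H.cl Δ) (H.act (H.cl Γ) a) := by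
  rw [cl_comp, H.act_comp]

lemma actH_zero (Γ : C.A (X.prod Y)) : H.act (H.cl Γ) 0 = 0 := H.act_map_zero _

lemma kills_comp_left {Γ : C.A (X.prod Y)} (Δ : C.A (Y.prod Z)) {m : ℤ} (h : Kills H Γ m) :
    Kills H (C.comp Γ Δ) m := fun a ha => by
  rw [actH_comp, h a ha, actH_zero]

lemma kills_comp_right {i j m : ℤ} {Γ : C.A (X.prod Y)} (hΓ : C.Deg (X.dim + i - j) Γ)
    {Δ : C.A (Y.prod Z)} (h : Kills H Δ (m + 2 * (i - j))) : Kills H (C.comp Γ Δ) m :=
  fun a ha => by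
    rw [actH_comp]
    exact h _ (actH_deg hΓ ha)

section reach

variable (hN : IsAbelJacobiKernel H N)
include hN

lemma Reach.two_le {ν j : ℕ} {z : C.A Z} (h : Reach H N Z ν j z) : 2 ≤ ν := by
  induction h with
  | base => exact le_rfl
  | step _ _ _ _ _ _ _ _ ih => omega

lemma reach_two {j : ℕ} {z : C.A Z} : Reach H N Z 2 j z ↔ z ∈ N Z j := by
  constructor
  · intro h
    cases h with
    | base _ _ hz => exact hz
    | step _ _ _ _ _ h _ _ => exact absurd (h.two_le hN) (by omega)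
  · exact Reach.base j z

lemma Reach.deg {ν j : ℕ} {z : C.A Z} (h : Reach H N Z ν j z) : C.Deg j z := by
  induction h with
  | base j z hz => exact (hN.deg Z j z hz).1
  | step ν j i z Γ _ hΓ _ ih => exact act_deg hΓ ih

lemma Reach.stable {ν j i : ℕ} {z : C.A Z} (h : Reach H N Z ν j z) {Γ : C.A (Z.prod Z)}
    (hΓ : C.Deg (Z.dim + i - j) Γ) : Reach H N Z ν i (C.act Γ z) := by
  cases h with
  | base _ _ hz => exact Reach.base i _ (hN.stable Z Z j i Γ hΓ z hz)
  | step ν' j' _ z' Γ' h' hΓ' hk =>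
    rw [← C.act_comp]
    exact Reach.step ν' j' i z' _ h' (comp_deg hΓ' hΓ) (kills_comp_left Γ hk)

omit hN

/-- The smallest filtration on the Chow groups of `Z` with the properties 1, 3 and 4. -/
noncomputable def cF (H : WeilTheoryData.{u, v, w} C K) [IsWeilProj H]
    (N : ∀ X : 𝒱.Obj, ℕ → Submodule ℚ (C.A X)) (Z : 𝒱.Obj) (j : ℕ) :
    ℕ → Submodule ℚ (C.A Z)
  | 0 => C.gr Z j
  | 1 =>
    { carrier := {z | C.Deg j z ∧ H.cl z = 0}
      add_mem' := fun {a b} ha hb => ⟨Submodule.add_mem _ ha.1 hb.1, by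
        rw [map_add, ha.2, hb.2, add_zero]⟩
      zero_mem' := ⟨Submodule.zero_mem _, map_zero _⟩
      smul_mem' := fun q z hz => ⟨Submodule.smul_mem _ q hz.1, cl_smul_zero hz.2 q⟩ }
  | ν + 2 => Submodule.span ℚ {z | Reach H N Z (ν + 2) j z}

lemma mem_cF_one {j : ℕ} {z : C.A Z} : z ∈ cF H N Z j 1 ↔ C.Deg j z ∧ H.cl z = 0 := Iff.rfl

include hN

lemma cF_two (j : ℕ) : cF H N Z j 2 = N Z j := by
  apply le_antisymm
  · exact Submodule.span_le.2 fun z hz => (reach_two hN).1 hz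
  · exact fun z hz => Submodule.subset_span ((reach_two hN).2 hz)

/-- The filtration `cF` has the properties 1, 3 and 4. -/
lemma isLoc_cF (Z : 𝒱.Obj) : IsLoc H N Z (cF H N Z) where
  anti := by
    intro j ν
    match ν with
    | 0 => exact fun z hz => hz.1
    | 1 =>
      rw [cF_two hN]
      exact fun z hz => hN.deg Z j z hz
    | ν + 2 =>
      refine Submodule.span_le.2 fun z hz => ?_
      have hz' : Reach H N Z (ν + 2 + 1) j z := hz
      cases hz' with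
      | step _ j' _ z' Γ h hΓ hk => exact Submodule.subset_span (h.stable hN hΓ)
  zero := fun j z => Iff.rfl
  one := fun j z => Iff.rfl
  two := cF_two hN
  stable := by
    intro j i ν Γ hΓ z hz
    match ν with
    | 0 => exact act_deg hΓ hz
    | 1 => exact ⟨act_deg hΓ hz.1, by rw [cl_act, hz.2, actH_zero]⟩
    | ν + 2 =>
      have h : cF H N Z j (ν + 2) ≤ (cF H N Z i (ν + 2)).comap (C.actL Γ) :=
        Submodule.span_le.2 fun z hz => Submodule.subset_span (Reach.stable hN hz hΓ)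
      exact h hz
  shift := by
    intro j i ν Γ hΓ hk z hz
    match ν with
    | 0 =>
      refine ⟨act_deg hΓ hz, ?_⟩
      rw [cl_act]
      refine hk _ ?_
      have := H.cl_mem (C := C) (X := Z) hz
      simpa using this
    | 1 =>
      rw [cF_two hN]
      exact hN.kills Z Z j i Γ hΓ (by simpa using hk) z hz.1 hz.2
    | ν + 2 =>
      have h : cF H N Z j (ν + 2) ≤ (cF H N Z i (ν + 2 + 1)).comap (C.actL Γ) :=
        Submodule.span_le.2 fun z hz => Submodule.subset_span (Reach.step _ j i z Γ hz hΓ hk)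
      exact h hz

/-- The filtration `cF` is the smallest one. -/
lemma cF_le {G : ℕ → ℕ → Submodule ℚ (C.A Z)} (h : IsLoc H N Z G) (j ν : ℕ) :
    cF H N Z j ν ≤ G j ν := by
  match ν with
  | 0 => exact fun z hz => (h.zero j z).2 hz
  | 1 => exact fun z hz => (h.one j z).2 hz
  | ν + 2 =>
    refine Submodule.span_le.2 fun z hz => ?_
    have key : ∀ (μ i : ℕ) (y : C.A Z), Reach H N Z μ i y → y ∈ G i μ := by
      intro μ i y hy
      induction hy with
      | base i y hy => rw [h.two]; exact hy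
      | step μ i l y Γ _ hΓ hk ih => exact h.shift i l μ Γ hΓ hk y ih
    exact key _ _ _ hz

end reach

end Pool.Agent.Q28.GL
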