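import Pool.Agent.Y148.BB.Curve

/-!
# Gluing Bloch-Beilinson filtrations: definitions
-/

open CategoryTheory AlgebraicGeometry

universe u v w

namespace Pool.Agent.Q28.GL

open Pool.Agent.H914 Pool.Agent.H914.VarClass Pool.Agent.H914.VarClass.Obj Pool.Agent.W492.BB
  Pool.Agent.W550.Corr Pool.Agent.TH133 Pool.Agent.Y148.BB

variable {k : Type u} [Field k] {𝒱 : VarClass k}

/-- `Dominates C c X Z`: there are correspondences `f` of degree `c` from `X` to `Z` and `g` of
degree `-c` from `Z` to `X` such that `g_* f_* x = x` for all `x ∈ CH(X)`. For `c = 0` this holds if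
the Chow motive of `X` is a direct summand of the Chow motive of `Z`, and in general if the Tate
twist `h(X)(-c)` is a direct summand of `h(Z)`. -/
def Dominates (C : TheoryData.{u, v, 0} 𝒱 ℚ) (c : ℕ) (X Z : 𝒱.Obj) : Prop :=
  ∃ (f : C.A (X.prod Z)) (g : C.A (Z.prod X)), C.Deg ((X.dim : ℤ) + c) f ∧
    C.Deg ((Z.dim : ℤ) - c) g ∧ ∀ x : C.A X, C.act g (C.act f x) = x

variable {C : TheoryData.{u, v, 0} 𝒱 ℚ} {K : Type w} [Field K] (H : WeilTheoryData.{u, v, w} C K)

/-- A family `F X j ν = F^ν CH^j(X)` of descending filtrations with the properties 1, 3 and 4 of a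
Bloch-Beilinson filtration for all correspondences between the varieties of the class `S`; `N` are
the kernels of the Abel-Jacobi maps. -/
structure IsPreBB (N : ∀ X : 𝒱.Obj, ℕ → Submodule ℚ (C.A X)) (S : 𝒱.Obj → Prop)
    (F : ∀ X : 𝒱.Obj, ℕ → ℕ → Submodule ℚ (C.A X)) : Prop where
  anti : ∀ X, S X → ∀ j ν : ℕ, F X j (ν + 1) ≤ F X j ν
  zero : ∀ X, S X → ∀ (j : ℕ) (z : C.A X), z ∈ F X j 0 ↔ C.Deg j z
  one : ∀ X, S X → ∀ (j : ℕ) (z : C.A X), z ∈ F X j 1 ↔ C.Deg j z ∧ H.cl z = 0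
  two : ∀ X, S X → ∀ j : ℕ, F X j 2 = N X j
  stable : ∀ X Y, S X → S Y → ∀ (j i ν : ℕ) (Γ : C.A (X.prod Y)), C.Deg (X.dim + i - j) Γ →
    ∀ z ∈ F X j ν, C.act Γ z ∈ F Y i ν
  shift : ∀ X Y, S X → S Y → ∀ (j i ν : ℕ) (Γ : C.A (X.prod Y)), C.Deg (X.dim + i - j) Γ →
    Kills H Γ (2 * j - ν) → ∀ z ∈ F X j ν, C.act Γ z ∈ F Y i (ν + 1)

/-- `HasBB H N c S`: on the Chow groups of the varieties of the class `S` there is a filtration with
the properties 1, 3, 4 (for all correspondences between varieties of the class `S`) and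
`F^(j + c + 1) CH^j = 0` for all `j`. For `c = 0` the last condition is property 2, and the
filtration is a Bloch-Beilinson filtration. -/
def HasBB (N : ∀ X : 𝒱.Obj, ℕ → Submodule ℚ (C.A X)) (c : ℕ) (S : 𝒱.Obj → Prop) : Prop :=
  ∃ F : ∀ X : 𝒱.Obj, ℕ → ℕ → Submodule ℚ (C.A X), IsPreBB H N S F ∧
    ∀ X, S X → ∀ j : ℕ, F X j (j + c + 1) = ⊥

/-- The Chow groups of the single variety `Z` have a filtration with the properties 1, 3, 4 for all
the self-correspondences of `Z` and `F^(j + d + 1) CH^j(Z) = 0`; for `d = 0` this is a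
Bloch-Beilinson filtration with respect to the self-correspondences of `Z`. -/
def HasOwnBB (N : ∀ X : 𝒱.Obj, ℕ → Submodule ℚ (C.A X)) (d : ℕ) (Z : 𝒱.Obj) : Prop :=
  HasBB H N d (fun Y => Y = Z)

/-- `Reach H N Z ν j z`: the class `z ∈ CH^j(Z)` is obtained from a class in the kernel of an
Abel-Jacobi map of `Z` by applying successively `ν - 2` self-correspondences of `Z`, of any degrees,
where the correspondence which is applied to a class of `CH^i(Z)` obtained in `μ - 2` steps acts as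
zero on `H^(2i - μ)(Z)`. -/
inductive Reach (N : ∀ X : 𝒱.Obj, ℕ → Submodule ℚ (C.A X)) (Z : 𝒱.Obj) : ℕ → ℕ → C.A Z → Prop
  | base (j : ℕ) (z : C.A Z) (hz : z ∈ N Z j) : Reach N Z 2 j z
  | step (ν j i : ℕ) (z : C.A Z) (Γ : C.A (Z.prod Z)) (h : Reach N Z ν j z)
      (hΓ : C.Deg (Z.dim + i - j) Γ) (hk : Kills H Γ (2 * j - ν)) :
      Reach N Z (ν + 1) i (C.act Γ z)

/-- All the classes of codimension `j` on the variety `Z` which are reached in `j - 1` steps are
zero. -/
def ChainsVanish (N : ∀ X : 𝒱.Obj, ℕ → Submodule ℚ (C.A X)) (Z : 𝒱.Obj) : Prop :=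
  ∀ (j : ℕ) (z : C.A Z), Reach H N Z (j + 1) j z → z = 0

/-- A consequence of the Lefschetz theorems and of the Lefschetz standard conjecture for `X`: the
cohomology `H^m(X)` is a direct summand, by means of correspondences of degree zero, of the
cohomology of a variety `Y` of dimension at most `m` (a smooth linear section of `X`). -/
def LefschetzFactors : Prop :=
  ∀ (X : 𝒱.Obj) (m : ℕ), ∃ (Y : 𝒱.Obj) (a : C.A (X.prod Y)) (b : C.A (Y.prod X)), Y.dim ≤ m ∧
    C.Deg X.dim a ∧ C.Deg Y.dim b ∧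
    ∀ α : H.A X, H.Deg m α → H.act (H.cl b) (H.act (H.cl a) α) = α

/-- Any two varieties of the class `S` are dominated, by correspondences of degree zero, by one
variety of the class `S`. -/
def Directed (C : TheoryData.{u, v, 0} 𝒱 ℚ) (S : 𝒱.Obj → Prop) : Prop :=
  ∀ X Y, S X → S Y → ∃ Z, S Z ∧ Dominates C 0 X Z ∧ Dominates C 0 Y Z

/-- The varieties which are dominated by varieties of the class `S`. -/
def Hull (C : TheoryData.{u, v, 0} 𝒱 ℚ) (c : ℕ) (S : 𝒱.Obj → Prop) (X : 𝒱.Obj) : Prop :=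
  ∃ Z, S Z ∧ Dominates C c X Z

end Pool.Agent.Q28.GL
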