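import Pool.Agent.Q28.GL.Core

/-!
# Gluing the filtrations of single varieties
-/

open CategoryTheory AlgebraicGeometry

universe u v w

namespace Pool.Agent.Q28.GL

open Pool.Agent.H914 Pool.Agent.H914.VarClass Pool.Agent.H914.VarClass.Obj Pool.Agent.W492.BB
  Pool.Agent.W550.Corr Pool.Agent.TH133 Pool.Agent.Y148.BB

set_option linter.unusedSectionVars false

variable {k : Type u} [Field k] {𝒱 : VarClass k}

variable {C : TheoryData.{u, v, 0} 𝒱 ℚ} {K : Type w} [Field K] {H : WeilTheoryData.{u, v, w} C K}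
  [hC : IsChowProj C] [hH : IsWeilProj H] {N : ∀ X : 𝒱.Obj, ℕ → Submodule ℚ (C.A X)}
  {X Y Z W Z₁ Z₂ : 𝒱.Obj}

/-- The pair `(f, g)` exhibits `X` as dominated by `Z`. -/
structure Ret (C : TheoryData.{u, v, 0} 𝒱 ℚ) (c : ℕ) (X Z : 𝒱.Obj) (f : C.A (X.prod Z))
    (g : C.A (Z.prod X)) : Prop where
  f_deg : C.Deg ((X.dim : ℤ) + c) f
  g_deg : C.Deg ((Z.dim : ℤ) - c) g
  eq : ∀ x : C.A X, C.act g (C.act f x) = x

lemma dominates_iff {c : ℕ} : Dominates C c X Z ↔ ∃ f g, Ret C c X Z f g :=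
  ⟨fun ⟨f, g, h1, h2, h3⟩ => ⟨f, g, h1, h2, h3⟩, fun ⟨f, g, h⟩ => ⟨f, g, h.1, h.2, h.3⟩⟩

include hC

lemma Ret.comp {c d : ℕ} {f : C.A (X.prod Y)} {g : C.A (Y.prod X)} {f' : C.A (Y.prod Z)}
    {g' : C.A (Z.prod Y)} (h : Ret C c X Y f g) (h' : Ret C d Y Z f' g') :
    Ret C (c + d) X Z (C.comp f f') (C.comp g' g) where
  f_deg := by
    have := comp_mem C h.f_deg h'.f_deg
    push_cast
    exact this
  g_deg := by
    have := comp_mem C (e := -(d : ℤ)) (e' := -(c : ℤ)) (by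
      rw [← sub_eq_add_neg]; exact h'.g_deg) (by rw [← sub_eq_add_neg]; exact h.g_deg)
      (Γ := g') (Δ := g)
    have e : (Z.dim : ℤ) - ((c + d : ℕ) : ℤ) = Z.dim + (-(d : ℤ) + -(c : ℤ)) := by
      push_cast; ring
    rw [e]
    exact this
  eq x := by
    rw [C.act_comp, C.act_comp, h'.eq, h.eq]

lemma Ret.refl (X : 𝒱.Obj) : Ret C 0 X X (dg C X) (dg C X) where
  f_deg := by
    have := dg_mem C X
    simpa using this
  g_deg := by
    have := dg_mem C X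
    simpa using this
  eq x := by rw [act_dg, act_dg]

lemma Dominates.trans {c d : ℕ} (h : Dominates C c X Y) (h' : Dominates C d Y Z) :
    Dominates C (c + d) X Z := by
  obtain ⟨f, g, h⟩ := dominates_iff.1 h
  obtain ⟨f', g', h'⟩ := dominates_iff.1 h'
  exact dominates_iff.2 ⟨_, _, h.comp h'⟩

lemma Dominates.refl (X : 𝒱.Obj) : Dominates C 0 X X := dominates_iff.2 ⟨_, _, Ret.refl X⟩

lemma Ret.deg_f {c : ℕ} {f : C.A (X.prod Z)} {g : C.A (Z.prod X)} (h : Ret C c X Z f g) (j : ℕ) :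
    C.Deg (X.dim + ((j + c : ℕ) : ℤ) - j) f := by
  have e : (X.dim : ℤ) + ((j + c : ℕ) : ℤ) - j = X.dim + c := by push_cast; ring
  rw [e]; exact h.f_deg

lemma Ret.deg_g {c : ℕ} {f : C.A (X.prod Z)} {g : C.A (Z.prod X)} (h : Ret C c X Z f g) (j : ℕ) :
    C.Deg (Z.dim + (j : ℤ) - ((j + c : ℕ) : ℤ)) g := by
  have e : (Z.dim : ℤ) + (j : ℤ) - ((j + c : ℕ) : ℤ) = Z.dim - c := by push_cast; ring
  rw [e]; exact h.g_deg

include hH

lemma Ret.cl_eq_zero {c : ℕ} {f : C.A (X.prod Z)} {g : C.A (Z.prod X)} (h : Ret C c X Z f g)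
    {x : C.A X} (hx : H.cl (C.act f x) = 0) : H.cl x = 0 := by
  rw [← h.eq x, cl_act, hx, actH_zero]

variable (hN : IsAbelJacobiKernel H N)
include hN

/-- The filtration induced on a variety dominated by `Z`. -/
lemma Ret.isLoc {c : ℕ} {f : C.A (X.prod Z)} {g : C.A (Z.prod X)} (h : Ret C c X Z f g)
    {G : ℕ → ℕ → Submodule ℚ (C.A Z)} (hG : IsLoc H N Z G) :
    IsLoc H N X (fun j ν => (G (j + c) ν).comap (C.actL f)) where
  anti j ν := fun z hz => hG.anti _ _ hz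
  zero j z := by
    change C.act f z ∈ G (j + c) 0 ↔ _
    rw [hG.zero]
    refine ⟨fun h1 => ?_, fun h1 => act_deg (h.deg_f j) h1⟩
    have := act_deg (h.deg_g j) h1
    rwa [h.eq] at this
  one j z := by
    change C.act f z ∈ G (j + c) 1 ↔ _
    rw [hG.one]
    constructor
    · rintro ⟨h1, h2⟩
      have := act_deg (h.deg_g j) h1
      rw [h.eq] at this
      exact ⟨this, h.cl_eq_zero h2⟩
    · rintro ⟨h1, h2⟩
      exact ⟨act_deg (h.deg_f j) h1, by rw [cl_act, h2, actH_zero]⟩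
  two j := by
    ext z
    change C.act f z ∈ G (j + c) 2 ↔ _
    rw [hG.two]
    constructor
    · intro h1
      have := hN.stable Z X (j + c) j g (h.deg_g j) _ h1
      rwa [h.eq] at this
    · intro h1
      exact hN.stable X Z j (j + c) f (h.deg_f j) _ h1
  stable j i ν Γ hΓ z hz := by
    have hz' : C.act f z ∈ G (j + c) ν := hz
    change C.act f (C.act Γ z) ∈ G (i + c) ν
    have e : C.act f (C.act Γ z) = C.act (C.comp (C.comp g Γ) f) (C.act f z) := by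
      rw [C.act_comp, C.act_comp, h.eq]
    rw [e]
    exact hG.stable (j + c) (i + c) ν _ (comp_deg (comp_deg (h.deg_g j) hΓ) (h.deg_f i)) _ hz'
  shift j i ν Γ hΓ hk z hz := by
    have hz' : C.act f z ∈ G (j + c) ν := hz
    change C.act f (C.act Γ z) ∈ G (i + c) (ν + 1)
    have e : C.act f (C.act Γ z) = C.act (C.comp (C.comp g Γ) f) (C.act f z) := by
      rw [C.act_comp, C.act_comp, h.eq]
    rw [e]
    refine hG.shift (j + c) (i + c) ν _ (comp_deg (comp_deg (h.deg_g j) hΓ) (h.deg_f i))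
      (kills_comp_left _ (kills_comp_right (h.deg_g j) ?_)) _ hz'
    have e2 : 2 * ((j + c : ℕ) : ℤ) - (ν : ℤ) + 2 * ((j : ℤ) - ((j + c : ℕ) : ℤ)) =
        2 * (j : ℤ) - ν := by
      push_cast; ring
    rw [e2]
    exact hk

lemma Ret.act_cF {c : ℕ} {f : C.A (X.prod Z)} {g : C.A (Z.prod X)} (h : Ret C c X Z f g)
    {j ν : ℕ} {x : C.A X} (hx : x ∈ cF H N X j ν) : C.act f x ∈ cF H N Z (j + c) ν :=
  cF_le hN (h.isLoc hN (isLoc_cF hN Z)) j ν hx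

/-- Transfer of the smallest filtration: `Θ` is any correspondence from `X` to `Z`. -/
lemma transfer {f₁ : C.A (X.prod Z₁)} {g₁ : C.A (Z₁.prod X)} (h₁ : Ret C 0 X Z₁ f₁ g₁)
    {a : C.A (Z₁.prod Z)} {b : C.A (Z.prod Z₁)} (h : Ret C 0 Z₁ Z a b) {j i ν : ℕ}
    {Θ : C.A (X.prod Z)} (hΘ : C.Deg (X.dim + i - j) Θ) {x : C.A X}
    (hx : C.act f₁ x ∈ cF H N Z₁ j ν) :
    C.act Θ x ∈ cF H N Z i ν ∧ (Kills H Θ (2 * j - ν) → C.act Θ x ∈ cF H N Z i (ν + 1)) := by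
  have h2 := h.act_cF hN hx
  have e : C.act Θ x = C.act (C.comp (C.comp b g₁) Θ) (C.act a (C.act f₁ x)) := by
    rw [C.act_comp, C.act_comp, h.eq, h₁.eq]
  have hd1 : C.Deg (Z.dim + (j : ℤ) - j) (C.comp b g₁) :=
    comp_deg (i := (j : ℤ)) (h.deg_g j) (h₁.deg_g j)
  have hd : C.Deg (Z.dim + (i : ℤ) - j) (C.comp (C.comp b g₁) Θ) := comp_deg hd1 hΘ
  refine ⟨?_, fun hk => ?_⟩
  · rw [e]
    exact (isLoc_cF hN Z).stable j i ν _ hd _ h2
  · rw [e]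
    refine (isLoc_cF hN Z).shift j i ν _ hd (kills_comp_right hd1 ?_) _ h2
    rw [sub_self, mul_zero, add_zero]
    exact hk

/-- `x ∈ CH^j(X)` belongs to the `ν`-th step after embedding `X` in a variety of the class `S`. -/
def Mem (H : WeilTheoryData.{u, v, w} C K) [IsWeilProj H]
    (N : ∀ X : 𝒱.Obj, ℕ → Submodule ℚ (C.A X)) (S : 𝒱.Obj → Prop) (X : 𝒱.Obj) (j ν : ℕ)
    (x : C.A X) : Prop :=
  ∃ (Z : 𝒱.Obj) (f : C.A (X.prod Z)) (g : C.A (Z.prod X)), S Z ∧ Ret C 0 X Z f g ∧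
    C.act f x ∈ cF H N Z j ν

variable {S : 𝒱.Obj → Prop} (hS : Directed C S)
include hS

lemma Mem.move {j ν i : ℕ} {x : C.A X} (hx : Mem H N S X j ν x) (hY : Hull C 0 S Y)
    {Γ : C.A (X.prod Y)} (hΓ : C.Deg (X.dim + i - j) Γ) :
    Mem H N S Y i ν (C.act Γ x) ∧
      (Kills H Γ (2 * j - ν) → Mem H N S Y i (ν + 1) (C.act Γ x)) := by
  obtain ⟨Z₁, f₁, g₁, hZ₁, h₁, hx⟩ := hx
  obtain ⟨Z₂, hZ₂, hd⟩ := hY
  obtain ⟨f₂, g₂, h₂⟩ := dominates_iff.1 hd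
  obtain ⟨Z, hZ, ha, hb⟩ := hS Z₁ Z₂ hZ₁ hZ₂
  obtain ⟨a₁, b₁, hab₁⟩ := dominates_iff.1 ha
  obtain ⟨a₂, b₂, hab₂⟩ := dominates_iff.1 hb
  have hret := h₂.comp hab₂
  have hdeg : C.Deg (X.dim + (i : ℤ) - j) (C.comp Γ (C.comp f₂ a₂)) :=
    comp_deg hΓ (by simpa using hret.deg_f i)
  have key := transfer hN h₁ hab₁ hdeg hx
  rw [C.act_comp] at key
  exact ⟨⟨Z, _, _, hZ, hret, key.1⟩, fun hk => ⟨Z, _, _, hZ, hret,
    key.2 (kills_comp_left _ hk)⟩⟩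

lemma Mem.add {j ν : ℕ} {x y : C.A X} (hx : Mem H N S X j ν x) (hy : Mem H N S X j ν y) :
    Mem H N S X j ν (x + y) := by
  obtain ⟨Z₁, f₁, g₁, hZ₁, h₁, hx⟩ := hx
  obtain ⟨Z₂, f₂, g₂, hZ₂, h₂, hy⟩ := hy
  obtain ⟨Z, hZ, ha, hb⟩ := hS Z₁ Z₂ hZ₁ hZ₂
  obtain ⟨a₁, b₁, hab₁⟩ := dominates_iff.1 ha
  obtain ⟨a₂, b₂, hab₂⟩ := dominates_iff.1 hb
  have hret := h₁.comp hab₁
  have hdeg : C.Deg (X.dim + (j : ℤ) - j) (C.comp f₁ a₁) := by simpa using hret.deg_f j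
  refine ⟨Z, _, _, hZ, hret, ?_⟩
  rw [act_map_add]
  exact Submodule.add_mem _ (transfer hN h₁ hab₁ hdeg hx).1 (transfer hN h₂ hab₂ hdeg hy).1

omit hS

lemma Mem.smul {j ν : ℕ} {x : C.A X} (q : ℚ) (hx : Mem H N S X j ν x) :
    Mem H N S X j ν (q • x) := by
  obtain ⟨Z₁, f₁, g₁, hZ₁, h₁, hx⟩ := hx
  refine ⟨Z₁, f₁, g₁, hZ₁, h₁, ?_⟩
  rw [act_map_smul]
  exact Submodule.smul_mem _ q hx

/-- The glued filtration. -/
noncomputable def gF (H : WeilTheoryData.{u, v, w} C K) [IsWeilProj H]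
    (N : ∀ X : 𝒱.Obj, ℕ → Submodule ℚ (C.A X)) (S : 𝒱.Obj → Prop) (X : 𝒱.Obj) (j ν : ℕ) :
    Submodule ℚ (C.A X) := Submodule.span ℚ {x | Mem H N S X j ν x}

include hS

lemma mem_gF (hX : Hull C 0 S X) {j ν : ℕ} {x : C.A X} :
    x ∈ gF H N S X j ν ↔ Mem H N S X j ν x := by
  refine ⟨fun h => ?_, fun h => Submodule.subset_span h⟩
  induction h using Submodule.span_induction with
  | mem x hx => exact hx
  | zero =>
    obtain ⟨Z, hZ, hd⟩ := hX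
    obtain ⟨f, g, h⟩ := dominates_iff.1 hd
    exact ⟨Z, f, g, hZ, h, by rw [C.act_map_zero]; exact Submodule.zero_mem _⟩
  | add x y _ _ hx hy => exact hx.add hN hS hy
  | smul q x _ hx => exact hx.smul hN q

/-- The glued filtration has the properties 1, 3 and 4. -/
lemma isPreBB_gF : IsPreBB H N (Hull C 0 S) (gF H N S) where
  anti X hX j ν := by
    intro z hz
    rw [mem_gF hN hS hX] at hz ⊢
    obtain ⟨Z, f, g, hZ, h, hz⟩ := hz
    exact ⟨Z, f, g, hZ, h, (isLoc_cF hN Z).anti j ν hz⟩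
  zero X hX j z := by
    rw [mem_gF hN hS hX]
    constructor
    · rintro ⟨Z, f, g, hZ, h, hz⟩
      exact ((h.isLoc hN (isLoc_cF hN Z)).zero j z).1 hz
    · intro hz
      obtain ⟨Z, hZ, hd⟩ := hX
      obtain ⟨f, g, h⟩ := dominates_iff.1 hd
      exact ⟨Z, f, g, hZ, h, ((h.isLoc hN (isLoc_cF hN Z)).zero j z).2 hz⟩
  one X hX j z := by
    rw [mem_gF hN hS hX]
    constructor
    · rintro ⟨Z, f, g, hZ, h, hz⟩
      exact ((h.isLoc hN (isLoc_cF hN Z)).one j z).1 hz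
    · intro hz
      obtain ⟨Z, hZ, hd⟩ := hX
      obtain ⟨f, g, h⟩ := dominates_iff.1 hd
      exact ⟨Z, f, g, hZ, h, ((h.isLoc hN (isLoc_cF hN Z)).one j z).2 hz⟩
  two X hX j := by
    ext z
    rw [mem_gF hN hS hX]
    constructor
    · rintro ⟨Z, f, g, hZ, h, hz⟩
      have h2 := (h.isLoc hN (isLoc_cF hN Z)).two j
      rw [← h2]
      exact hz
    · intro hz
      obtain ⟨Z, hZ, hd⟩ := hX
      obtain ⟨f, g, h⟩ := dominates_iff.1 hd
      have h2 := (h.isLoc hN (isLoc_cF hN Z)).two j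
      rw [← h2] at hz
      exact ⟨Z, f, g, hZ, h, hz⟩
  stable X Y hX hY j i ν Γ hΓ z hz := by
    rw [mem_gF hN hS hX] at hz
    rw [mem_gF hN hS hY]
    exact (hz.move hN hS hY hΓ).1
  shift X Y hX hY j i ν Γ hΓ hk z hz := by
    rw [mem_gF hN hS hX] at hz
    rw [mem_gF hN hS hY]
    exact (hz.move hN hS hY hΓ).2 hk

/-- The termination of the glued filtration. -/
lemma gF_top {c d : ℕ}
    (hc : ∀ X, S X → ∃ Z, Dominates C c X Z ∧ HasBB H N d (fun Y => Y = Z))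
    (hX : Hull C 0 S X) (j : ℕ) : gF H N S X j (j + (c + d) + 1) = ⊥ := by
  rw [eq_bot_iff]
  intro z hz
  rw [mem_gF hN hS hX] at hz
  obtain ⟨Z, f, g, hZ, h, hz⟩ := hz
  obtain ⟨Z', hd, F, hF, htop⟩ := hc Z hZ
  obtain ⟨f', g', h'⟩ := dominates_iff.1 hd
  have h1 := h'.act_cF hN hz
  have h2 := cF_le hN (hF.loc (Z := Z') rfl) _ _ h1
  have h3 := htop Z' rfl (j + c)
  rw [← Nat.add_assoc] at h2
  rw [h3, Submodule.mem_bot] at h2
  rw [Submodule.mem_bot, ← h.eq z, ← h'.eq (C.act f z), h2, C.act_map_zero, C.act_map_zero]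

end Pool.Agent.Q28.GL
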